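import Pool.Agent.H9.EH.A4
import Pool.Agent.H15.EH.A24
import Pool.Agent.H49.EH.YV
import Pool.Agent.H23.EH.YQd

/-!
# EHP (S06849), block D of the energy part: the right end `l → +∞`

Only bounds of the test function in the range `[mn l, Mx l]` are used: with base point `m = mn l` the terms `H (l, m)`,
`Psi (l, m)`, `W (l, m)` cancel, since `y` and `d1 y` have the same circle means for both level functions.
-/

set_option autoImplicit false

open MeasureTheory Set Filter Topology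
open scoped Real

noncomputable section

namespace Pool.Agent.H63.EH

open Pool.Agent.H15.EH (FData H Hl W Psi hasDerivAt_prim_right)
open Pool.Agent.H23.EH (d1)
open Pool.Agent.H24.EH (ex gQ gV yQ yV rho Mx mn YData Touch FHyp FF FFl FFg FFlg Hf Pf Th Bp B1)

section abstract_part

variable {F Fl Fg Fll Flg Fgg Fllg : ℝ → ℝ → ℝ} {e l m M K : ℝ}

/-- mean value inequality on `[m, M]`, base point `m` -/
private theorem mvt {f f' : ℝ → ℝ} {C : ℝ} (hf : ∀ t, m ≤ t → HasDerivAt f (f' t) t)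
    (hb : ∀ t, m ≤ t → t ≤ M → |f' t| ≤ C) {t : ℝ} (h1 : m ≤ t) (h2 : t ≤ M) :
    |f t - f m| ≤ C * (t - m) := by
  have h := Convex.norm_image_sub_le_of_norm_hasDerivWithin_le (f := f) (f' := f') (s := Icc m M)
    (C := C) (x := m) (y := t) (fun x hx => (hf x hx.1).hasDerivWithinAt)
    (fun x hx => hb x hx.1 hx.2) (convex_Icc m M) ⟨le_rfl, h1.trans h2⟩ ⟨h1, h2⟩
  rw [Real.norm_eq_abs, Real.norm_eq_abs, abs_of_nonneg (sub_nonneg.2 h1)] at h
  exact h

theorem re_H (h : FData F Fl Fg Fll Flg Fgg Fllg) (he : 0 < e) (hm : 0 < m)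
    (hg : ∀ t, m ≤ t → t ≤ M → |Fg l t| ≤ K) {t : ℝ} (h1 : m ≤ t) (h2 : t ≤ M) :
    |H Fg e l t - H Fg e l m| ≤ K ^ 2 * (t - m) := by
  refine mvt (f := H Fg e l) (f' := fun t => Fg l t ^ 2)
    (fun t ht => h.H_g he l (hm.trans_le ht)) (fun t h1 h2 => ?_) h1 h2
  rw [abs_pow]
  exact pow_le_pow_left₀ (abs_nonneg _) (hg t h1 h2) 2

theorem re_W (h : FData F Fl Fg Fll Flg Fgg Fllg) (he : 0 < e) (hm : 0 < m) (hw : M - m ≤ 1)
    (hl : ∀ t, m ≤ t → t ≤ M → |Fl l t| ≤ K) (hg : ∀ t, m ≤ t → t ≤ M → |Fg l t| ≤ K)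
    (hlg : ∀ t, m ≤ t → t ≤ M → |Flg l t| ≤ K) {t : ℝ} (h1 : m ≤ t) (h2 : t ≤ M) :
    |W Fl Fg Flg e l t - W Fl Fg Flg e l m| ≤ 6 * K ^ 2 := by
  have hK : 0 ≤ K := (abs_nonneg _).trans (hl m le_rfl (h1.trans h2))
  have a1 : |Hl Fg Flg e l t - Hl Fg Flg e l m| ≤ (2 * K ^ 2) * (t - m) := by
    refine mvt (f := Hl Fg Flg e l) (f' := fun t => 2 * Fg l t * Flg l t)
      (fun t ht => hasDerivAt_prim_right (f := fun l t => 2 * Fg l t * Flg l t) h.cont_FgFlg l he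
        (hm.trans_le ht)) (fun t h1 h2 => ?_) h1 h2
    rw [abs_mul, abs_mul, abs_two]
    have := mul_le_mul (hg t h1 h2) (hlg t h1 h2) (abs_nonneg _) hK
    nlinarith
  have a2 : (2 * K ^ 2) * (t - m) ≤ 2 * K ^ 2 := by
    have : t - m ≤ 1 := by linarith
    nlinarith [sq_nonneg K]
  have a3 : ∀ t, m ≤ t → t ≤ M → |2 * Fl l t * Fg l t| ≤ 2 * K ^ 2 := by
    intro t h1 h2
    rw [abs_mul, abs_mul, abs_two]
    have := mul_le_mul (hl t h1 h2) (hg t h1 h2) (abs_nonneg _) hK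
    nlinarith
  have e1 : W Fl Fg Flg e l t - W Fl Fg Flg e l m =
      2 * Fl l t * Fg l t - 2 * Fl l m * Fg l m - (Hl Fg Flg e l t - Hl Fg Flg e l m) := by
    unfold W
    ring
  rw [e1]
  refine (abs_sub _ _).trans ?_
  refine (add_le_add (abs_sub _ _) le_rfl).trans ?_
  have b1 := a3 t h1 h2
  have b2 := a3 m le_rfl (h1.trans h2)
  linarith

theorem re_Psi (h : FData F Fl Fg Fll Flg Fgg Fllg) (he : 0 < e) (hm : 0 < m) (hw : M - m ≤ 1)
    (hl : ∀ t, m ≤ t → t ≤ M → |Fl l t| ≤ K) (hg : ∀ t, m ≤ t → t ≤ M → |Fg l t| ≤ K)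
    (hlg : ∀ t, m ≤ t → t ≤ M → |Flg l t| ≤ K) {t : ℝ} (h1 : m ≤ t) (h2 : t ≤ M) :
    |Psi Fl Fg Flg e l t - Psi Fl Fg Flg e l m - W Fl Fg Flg e l m * (t - m)| ≤
      6 * K ^ 2 * (t - m) := by
  have a1 := mvt (M := M) (m := m) (C := 6 * K ^ 2)
    (f := fun t => Psi Fl Fg Flg e l t - W Fl Fg Flg e l m * t)
    (f' := fun t => W Fl Fg Flg e l t - W Fl Fg Flg e l m)
    (fun t ht => by
      have i1 := h.Psi_g he l (hm.trans_le ht)
      have i2 := (hasDerivAt_id t).const_mul (W Fl Fg Flg e l m)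
      have i3 := i1.sub i2
      rw [mul_one] at i3
      exact i3)
    (fun t h1 h2 => re_W h he hm hw hl hg hlg h1 h2) h1 h2
  have e1 : Psi Fl Fg Flg e l t - Psi Fl Fg Flg e l m - W Fl Fg Flg e l m * (t - m) =
      (Psi Fl Fg Flg e l t - W Fl Fg Flg e l m * t) -
        (Psi Fl Fg Flg e l m - W Fl Fg Flg e l m * m) := by ring
  rw [e1]
  exact a1

/-- the boundary term of one level function up to `O(M - m)` -/
theorem th_base (h : FData F Fl Fg Fll Flg Fgg Fllg) (he : 0 < e) (hm : 0 < m) (hw : M - m ≤ 1)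
    (hl : ∀ t, m ≤ t → t ≤ M → |Fl l t| ≤ K) (hg : ∀ t, m ≤ t → t ≤ M → |Fg l t| ≤ K)
    (hlg : ∀ t, m ≤ t → t ≤ M → |Flg l t| ≤ K) {y y' : ℝ → ℝ} {c d L L' : ℝ} (hcd : c ≤ d)
    (hy : Continuous y) (hy' : Continuous y') (hym : ∀ φ, m ≤ y φ) (hyM : ∀ φ, y φ ≤ M)
    (hy0 : ∀ φ, 0 ≤ y' φ) (hI : (∫ φ in c..d, y φ) = L) (hI' : (∫ φ in c..d, y' φ) = L') :
    |(∫ φ in c..d, (H Fg e l (y φ) * y' φ + Psi Fl Fg Flg e l (y φ))) -
      (H Fg e l m * L' + Psi Fl Fg Flg e l m * (d - c) +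
        W Fl Fg Flg e l m * (L - m * (d - c)))| ≤
      K ^ 2 * (M - m) * L' + 6 * K ^ 2 * (M - m) * (d - c) := by
  have cH : Continuous fun φ => H Fg e l (y φ) := by
    rw [continuous_iff_continuousAt]
    intro φ
    exact (h.H_g he l (hm.trans_le (hym φ))).continuousAt.comp hy.continuousAt
  have cP : Continuous fun φ => Psi Fl Fg Flg e l (y φ) := by
    rw [continuous_iff_continuousAt]
    intro φ
    exact (h.Psi_g he l (hm.trans_le (hym φ))).continuousAt.comp hy.continuousAt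
  have c1 : Continuous fun φ => H Fg e l (y φ) * y' φ + Psi Fl Fg Flg e l (y φ) :=
    (cH.mul hy').add cP
  have c2 : Continuous fun φ => H Fg e l m * y' φ + Psi Fl Fg Flg e l m +
      W Fl Fg Flg e l m * (y φ - m) := by fun_prop
  have e1 : H Fg e l m * L' + Psi Fl Fg Flg e l m * (d - c) +
        W Fl Fg Flg e l m * (L - m * (d - c)) =
      ∫ φ in c..d, (H Fg e l m * y' φ + Psi Fl Fg Flg e l m + W Fl Fg Flg e l m * (y φ - m)) := by
    rw [intervalIntegral.integral_add, intervalIntegral.integral_add,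
      intervalIntegral.integral_const_mul, intervalIntegral.integral_const_mul,
      intervalIntegral.integral_sub, hI, hI', intervalIntegral.integral_const,
      intervalIntegral.integral_const]
    · simp only [smul_eq_mul]
      ring
    all_goals apply Continuous.intervalIntegrable; fun_prop
  rw [e1, ← intervalIntegral.integral_sub (c1.intervalIntegrable _ _) (c2.intervalIntegrable _ _)]
  have e2 : K ^ 2 * (M - m) * L' + 6 * K ^ 2 * (M - m) * (d - c) =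
      ∫ φ in c..d, (K ^ 2 * (M - m) * y' φ + 6 * K ^ 2 * (M - m)) := by
    rw [intervalIntegral.integral_add, intervalIntegral.integral_const_mul, hI',
      intervalIntegral.integral_const]
    · simp only [smul_eq_mul]
      ring
    all_goals apply Continuous.intervalIntegrable; fun_prop
  rw [e2, ← Real.norm_eq_abs]
  have c3 : Continuous fun φ => K ^ 2 * (M - m) * y' φ + 6 * K ^ 2 * (M - m) := by fun_prop
  refine intervalIntegral.norm_integral_le_of_norm_le (μ := volume) hcd ?_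
    (c3.intervalIntegrable _ _)
  refine Filter.Eventually.of_forall fun φ _ => ?_
  have h1 := hym φ
  have h2 := hyM φ
  have e3 : H Fg e l (y φ) * y' φ + Psi Fl Fg Flg e l (y φ) -
      (H Fg e l m * y' φ + Psi Fl Fg Flg e l m + W Fl Fg Flg e l m * (y φ - m)) =
      (H Fg e l (y φ) - H Fg e l m) * y' φ +
        (Psi Fl Fg Flg e l (y φ) - Psi Fl Fg Flg e l m - W Fl Fg Flg e l m * (y φ - m)) := by
    ring
  rw [Real.norm_eq_abs, e3]
  refine (abs_add_le _ _).trans ?_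
  have hK2 : 0 ≤ K ^ 2 := sq_nonneg K
  refine add_le_add ?_ ?_
  · rw [abs_mul, abs_of_nonneg (hy0 φ)]
    refine mul_le_mul_of_nonneg_right ?_ (hy0 φ)
    refine (re_H h he hm hg h1 h2).trans ?_
    exact mul_le_mul_of_nonneg_left (by linarith) hK2
  · refine (re_Psi h he hm hw hl hg hlg h1 h2).trans ?_
    exact mul_le_mul_of_nonneg_left (by linarith) (by positivity)

end abstract_part

section deriv_part

variable {y : ℝ × ℝ → ℝ}

/-- `d1 y` is the derivative in the first variable -/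
theorem hasDerivAt_d1 {l φ : ℝ} (h : DifferentiableAt ℝ y (l, φ)) :
    HasDerivAt (fun s => y (s, φ)) (d1 y (l, φ)) l := by
  have h1 : HasDerivAt (fun s : ℝ => ((s, φ) : ℝ × ℝ)) ((1, 0) : ℝ × ℝ) l :=
    (hasDerivAt_id l).prodMk (hasDerivAt_const l φ)
  exact h.hasFDerivAt.comp_hasDerivAt l h1

theorem cont_d1 {l₀ : ℝ} (hs : ∀ x : ℝ × ℝ, l₀ < x.1 → ContDiffAt ℝ 1 y x) :
    ContinuousOn (d1 y) {x | l₀ < x.1} := by
  intro x hx
  have h1 : ContinuousAt (fderiv ℝ y) x :=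
    ((hs x hx).fderiv_right (m := 0) (by norm_num)).continuousAt
  exact (h1.clm_apply continuousAt_const).continuousWithinAt

/-- the circle mean of `d1 y` -/
theorem mean_d1 {l₀ : ℝ} (hs : ∀ x : ℝ × ℝ, l₀ < x.1 → ContDiffAt ℝ 1 y x)
    (hmean : ∀ l, l₀ < l → (∫ φ in (0 : ℝ)..2 * π, y (l, φ)) = 2 * π * l) {l : ℝ} (hl : l₀ < l) :
    (∫ φ in (0 : ℝ)..2 * π, d1 y (l, φ)) = 2 * π := by
  obtain ⟨δ, hδ⟩ : ∃ δ, δ = (l - l₀) / 2 := ⟨_, rfl⟩
  have hδ0 : 0 < δ := by rw [hδ]; linarith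
  have hsub : ∀ x ∈ Icc (l - δ) (l + δ) ×ˢ Set.uIcc (0 : ℝ) (2 * π), x ∈ {x : ℝ × ℝ | l₀ < x.1} := by
    rintro ⟨a, b⟩ hx
    have h1 : l - δ ≤ a := hx.1.1
    show l₀ < a
    linarith
  obtain ⟨C, hC⟩ := (isCompact_Icc.prod isCompact_uIcc).exists_bound_of_continuousOn
    ((cont_d1 hs).mono hsub)
  have cy : ∀ s, l₀ < s → Continuous fun φ => y (s, φ) := by
    intro s hs'
    rw [continuous_iff_continuousAt]
    intro φ
    exact ((hs (s, φ) hs').continuousAt).comp (x := φ) (by fun_prop)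
  have cd : ∀ s, l₀ < s → Continuous fun φ => d1 y (s, φ) := by
    intro s hs'
    rw [continuous_iff_continuousAt]
    intro φ
    have h1 : ContinuousAt (d1 y) (s, φ) := (cont_d1 hs).continuousAt
      ((isOpen_lt continuous_const continuous_fst).mem_nhds hs')
    exact ContinuousAt.comp (x := φ) h1 (by fun_prop)
  have h := intervalIntegral.hasDerivAt_integral_of_dominated_loc_of_deriv_le
    (μ := volume) (a := 0) (b := 2 * π) (F := fun s φ => y (s, φ))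
    (F' := fun s φ => d1 y (s, φ)) (x₀ := l) (s := Ioo (l - δ) (l + δ))
    (bound := fun _ => C)
    (Ioo_mem_nhds (by linarith) (by linarith)) ?_ ((cy l hl).intervalIntegrable _ _) ?_ ?_ ?_ ?_
  · have h1 : (fun s => ∫ φ in (0 : ℝ)..2 * π, y (s, φ)) =ᶠ[𝓝 l] fun s => 2 * π * s := by
      filter_upwards [lt_mem_nhds hl] with s hs' using hmean s hs'
    have h2 : HasDerivAt (fun s : ℝ => 2 * π * s) (2 * π) l := by
      simpa using (hasDerivAt_id l).const_mul (2 * π)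
    exact (h.2.congr_of_eventuallyEq h1.symm).unique h2
  · filter_upwards [lt_mem_nhds hl] with s hs'
    exact (cy s hs').aestronglyMeasurable
  · exact (cd l hl).aestronglyMeasurable
  · refine Filter.Eventually.of_forall fun t ht x hx => ?_
    exact hC (x, t) ⟨⟨hx.1.le, hx.2.le⟩, uIoc_subset_uIcc ht⟩
  · exact intervalIntegrable_const
  · refine Filter.Eventually.of_forall fun t ht x hx => ?_
    have h1 : l₀ < x := by
      have := hx.1
      linarith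
    exact hasDerivAt_d1 ((hs (x, t) h1).differentiableAt (by norm_num))

/-- `d1 y ≥ 0` for `y` increasing in `l` -/
theorem d1_nonneg {l₀ l φ : ℝ} (hl : l₀ < l) (h : DifferentiableAt ℝ y (l, φ))
    (hmono : ∀ s s', l₀ ≤ s → s ≤ s' → y (s, φ) ≤ y (s', φ)) : 0 ≤ d1 y (l, φ) := by
  have h1 := (hasDerivAt_d1 h).hasDerivWithinAt (s := Ici l₀)
  refine h1.nonneg_of_monotoneOn ?_ (fun s hs s' _ hss => hmono s s' hs hss)
  have h2 : Ici l₀ ∈ 𝓝 l := Ici_mem_nhds hl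
  have h3 : AccPt l (𝓟 (Set.univ : Set ℝ)) := PerfectSpace.univ_preperfect (α := ℝ) l (mem_univ l)
  have h4 := h3.nhds_inter h2
  rwa [inter_univ] at h4

end deriv_part

/-! ### the two level functions -/

/-- what is used of `yQ a` and `yV` for `l ≥ log 4` -/
structure RData (y : ℝ × ℝ → ℝ) : Prop where
  data : YData y
  lo : ∀ l φ, Real.log 4 ≤ l → mn l ≤ y (l, φ)
  hi : ∀ l φ, Real.log 4 ≤ l → y (l, φ) ≤ Mx l
  mean : ∀ l, Real.log 4 ≤ l → (∫ φ in (0 : ℝ)..2 * π, y (l, φ)) = 2 * π * l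
  mono : ∀ φ l l', Real.log 4 ≤ l → l ≤ l' → y (l, φ) ≤ y (l', φ)

theorem norm_mul_sub_le {u a : ℂ} (hu : ‖u‖ = 1) {r r' : ℝ} (hr : ‖a‖ ≤ r) (hrr : r ≤ r') :
    ‖(r : ℂ) * u - a‖ ≤ ‖(r' : ℂ) * u - a‖ := by
  have h1 : ∀ s : ℝ, ‖(s : ℂ) * u - a‖ ^ 2 = s ^ 2 - 2 * (s * inner ℝ u a) + ‖a‖ ^ 2 := by
    intro s
    have h2 : (s : ℂ) * u = s • u := by simp
    rw [h2, norm_sub_sq_real, norm_smul, hu, real_inner_smul_left, mul_one, Real.norm_eq_abs,
      sq_abs]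
  have h3 : inner ℝ u a ≤ ‖a‖ := by
    have := real_inner_le_norm u a
    rwa [hu, one_mul] at this
  have h0 : 0 ≤ ‖a‖ := norm_nonneg a
  refine le_of_sq_le_sq ?_ (norm_nonneg _)
  rw [h1, h1]
  nlinarith [mul_nonneg (sub_nonneg.2 hrr) (sub_nonneg.2 (h3.trans hr)),
    mul_nonneg (sub_nonneg.2 hrr) (sub_nonneg.2 (h3.trans (hr.trans hrr)))]

theorem ex_eq_mul (l φ : ℝ) : ex (l, φ) = ((Real.exp l : ℝ) : ℂ) * Complex.exp (φ * Complex.I) := by
  unfold ex
  rw [Complex.exp_add, Complex.ofReal_exp]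

theorem norm_ex_sub_le {a : ℂ} {l l' φ : ℝ} (ha : ‖a‖ ≤ Real.exp l) (hl : l ≤ l') :
    ‖ex (l, φ) - a‖ ≤ ‖ex (l', φ) - a‖ := by
  rw [ex_eq_mul, ex_eq_mul]
  exact norm_mul_sub_le (Complex.norm_exp_ofReal_mul_I φ) ha (Real.exp_le_exp.2 hl)

theorem four_le_exp {l : ℝ} (hl : Real.log 4 ≤ l) : 4 ≤ Real.exp l := by
  rw [← Real.exp_log (show (0 : ℝ) < 4 by norm_num)]
  exact Real.exp_le_exp.2 hl

theorem yQ_RData {n : ℕ} {a : Fin n → ℂ} {p : ℝ} (h : Touch a p) (hd : YData (yQ a)) :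
    RData (yQ a) where
  data := hd
  lo l φ hl := Pool.Agent.H9.EH.le_yQ h l φ hl
  hi l φ _ := Pool.Agent.H9.EH.yQ_le h l φ
  mean l hl := by
    have h4 := four_le_exp hl
    have h1 := Pool.Agent.H9.EH.integral_xz h.hn a (Real.exp_pos l)
      (fun j => ((h.a4 j).le.trans h4))
    rw [Real.log_exp] at h1
    rw [← h1]
    refine intervalIntegral.integral_congr fun φ _ => ?_
    show yQ a (l, φ) = Pool.Agent.H9.EH.xz a (circleMap 0 (Real.exp l) φ)
    have hn : ‖ex (l, φ)‖ = Real.exp l := Pool.Agent.H9.EH.norm_ex l φ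
    have h2 : ∀ j, ex (l, φ) ≠ a j := by
      intro j hj
      have := h.a4 j
      rw [← hj, hn] at this
      linarith
    have h3 := Pool.Agent.H9.EH.gQ_eq a h2
    have h5 := Pool.Agent.H9.EH.le_xz_Touch h (w := ex (l, φ)) (by rw [hn]; exact h4)
    have h6 := Pool.Agent.H9.EH.mr_nonneg ‖ex (l, φ)‖
    unfold yQ
    rw [h3, ← Pool.Agent.H9.EH.ex_eq, max_eq_left (h6.trans h5)]
  mono φ l l' hl hll := by
    have h4 := four_le_exp hl
    unfold yQ gQ
    refine mul_le_mul_of_nonneg_left ?_ (by positivity)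
    refine Real.posLog_le_posLog (norm_nonneg _) ?_
    rw [norm_prod, norm_prod]
    refine Finset.prod_le_prod (fun j _ => norm_nonneg _) fun j _ => ?_
    exact norm_ex_sub_le ((h.a4 j).le.trans h4) hll

theorem yV_RData : RData yV where
  data := Pool.Agent.H49.EH.yV_data
  lo l φ _ := Pool.Agent.H9.EH.le_yV l φ
  hi l φ _ := Pool.Agent.H9.EH.yV_le l φ
  mean l hl := by
    have h4 := four_le_exp hl
    have h1 := Pool.Agent.H9.EH.int_gv_eq h4
    rw [Real.log_exp] at h1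
    rw [← h1]
    refine intervalIntegral.integral_congr fun φ _ => ?_
    show gV (ex (l, φ)) = Pool.Agent.H21.EH.gv (circleMap 0 (Real.exp l) φ)
    rw [Pool.Agent.H9.EH.ex_eq]
    rfl
  mono φ l l' hl hll := by
    have h4 := four_le_exp hl
    unfold yV gV
    have h1 : ∀ z : ℂ, 1 ≤ (‖z‖ + ‖z - 4‖) / 4 := by
      intro z
      have h2 : ‖(4 : ℂ)‖ ≤ ‖z‖ + ‖z - 4‖ := by
        have : (4 : ℂ) = z - (z - 4) := by ring
        calc ‖(4 : ℂ)‖ = ‖z - (z - 4)‖ := by rw [← this]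
          _ ≤ ‖z‖ + ‖z - 4‖ := norm_sub_le _ _
      have h3 : ‖(4 : ℂ)‖ = 4 := by simp
      rw [h3] at h2
      linarith
    have h5 : ‖(4 : ℂ)‖ ≤ Real.exp l := by
      have h3 : ‖(4 : ℂ)‖ = 4 := by simp
      rw [h3]
      exact h4
    have h2 := norm_ex_sub_le (φ := φ) h5 hll
    have h3 : ‖ex (l, φ)‖ ≤ ‖ex (l', φ)‖ := by
      rw [Pool.Agent.H9.EH.norm_ex, Pool.Agent.H9.EH.norm_ex]
      exact Real.exp_le_exp.2 hll
    rw [Real.arcosh_le_arcosh (lt_of_lt_of_le one_pos (h1 _)) (lt_of_lt_of_le one_pos (h1 _))]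
    linarith

/-! ### the range for `l ≥ log 8` -/

theorem two_le_rho {l : ℝ} (hl : Real.log 8 ≤ l) : 2 ≤ rho l := by
  unfold rho
  have h1 : (8 : ℝ) ≤ Real.exp l := by
    rw [← Real.exp_log (show (0 : ℝ) < 8 by norm_num)]
    exact Real.exp_le_exp.2 hl
  linarith

theorem one_le_mn {l : ℝ} (hl : Real.log 8 ≤ l) : 1 ≤ mn l := by
  have h1 := two_le_rho hl
  have h2 : Real.cosh 1 ≤ max 1 (2 * rho l - 1) := by
    refine le_trans ?_ (le_max_right _ _)
    have h3 : Real.exp 1 < 2.7182818286 := Real.exp_one_lt_d9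
    have h4 : Real.exp (-1) ≤ 1 := Real.exp_le_one_iff.2 (by norm_num)
    rw [Real.cosh_eq]
    linarith
  have h3 : Real.arcosh (Real.cosh 1) ≤ mn l := by
    unfold mn
    rw [Real.arcosh_le_arcosh (Real.cosh_pos 1) (lt_of_lt_of_le one_pos (le_max_left _ _))]
    exact h2
  rwa [Real.arcosh_cosh (by norm_num)] at h3

theorem cosh_mn {l : ℝ} (hl : Real.log 8 ≤ l) : Real.cosh (mn l) = 2 * rho l - 1 := by
  have h1 := two_le_rho hl
  unfold mn
  rw [Real.cosh_arcosh (le_max_left _ _)]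
  exact max_eq_right (by linarith)

theorem cosh_Mx {l : ℝ} : Real.cosh (Mx l) = 2 * rho l + 1 := by
  unfold Mx
  have : 0 < rho l := by unfold rho; positivity
  exact Real.cosh_arcosh (by linarith)

theorem in_range {l t : ℝ} (hl : Real.log 8 ≤ l) (h1 : mn l ≤ t) (h2 : t ≤ Mx l) :
    |Real.cosh t - 2 * rho l| ≤ 1 := by
  have h0 := one_le_mn hl
  have h3 : Real.cosh (mn l) ≤ Real.cosh t := by
    rw [Real.cosh_le_cosh, abs_of_nonneg (by linarith), abs_of_nonneg (by linarith)]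
    exact h1
  have h4 : Real.cosh t ≤ Real.cosh (Mx l) := by
    rw [Real.cosh_le_cosh, abs_of_nonneg (by linarith), abs_of_nonneg (by linarith)]
    exact h2
  rw [cosh_mn hl] at h3
  rw [cosh_Mx] at h4
  rw [abs_le]
  constructor <;> linarith

theorem Mx_sub_mn_le {l : ℝ} (hl : Real.log 8 ≤ l) : Mx l - mn l ≤ 8 * Real.exp (-l) := by
  have h1 : (8 : ℝ) ≤ Real.exp l := by
    rw [← Real.exp_log (show (0 : ℝ) < 8 by norm_num)]
    exact Real.exp_le_exp.2 hl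
  have h2 := Pool.Agent.H9.EH.Mr_sub_mr_le h1
  rw [Pool.Agent.H9.EH.Mx_eq, Pool.Agent.H9.EH.mn_eq, Real.exp_neg, ← div_eq_mul_inv]
  exact h2

/-- the boundary term of one level function, `l ≥ log 8` -/
theorem Th_base {F Fl Fg Fll Flg Fgg Fllg : ℝ → ℝ → ℝ} (h : FData F Fl Fg Fll Flg Fgg Fllg)
    {K l : ℝ} (hl : Real.log 8 ≤ l)
    (hK : ∀ g, 0 < g → |Real.cosh g - 2 * rho l| ≤ 1 → |Fl l g| ≤ K ∧ |Fg l g| ≤ K ∧ |Flg l g| ≤ K)
    {η : ℝ} (hη : 0 < η) (hη1 : η ≤ 1 / 3) {y : ℝ × ℝ → ℝ} (hy : RData y) :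
    |Th Fl Fg Flg η y l - (H (FFg Fg η) η l (mn l) * (2 * π) +
      Psi (FFl Fl η) (FFg Fg η) (FFlg Flg η) η l (mn l) * (2 * π - 0) +
      W (FFl Fl η) (FFg Fg η) (FFlg Flg η) η l (mn l) * (2 * π * l - mn l * (2 * π - 0)))| ≤
      112 * π * K ^ 2 * Real.exp (-l) := by
  have h8 : (8 : ℝ) ≤ Real.exp l := by
    rw [← Real.exp_log (show (0 : ℝ) < 8 by norm_num)]
    exact Real.exp_le_exp.2 hl
  have hl4 : Real.log 4 < l := lt_of_lt_of_le (Real.log_lt_log (by norm_num) (by norm_num)) hl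
  have hm1 := one_le_mn hl
  have hw := Mx_sub_mn_le hl
  have hexp : 8 * Real.exp (-l) ≤ 1 := by
    rw [Real.exp_neg, ← div_eq_mul_inv, div_le_one (Real.exp_pos l)]
    exact h8
  have hB := Pool.Agent.H15.EH.Bp_props η hη
  have hBt : ∀ t, mn l ≤ t → Bp η t = t ∧ B1 η t = 1 := by
    intro t ht
    have := hB.2.2.2.2.1 t (by linarith)
    exact ⟨this.1, this.2.1⟩
  have hbd : ∀ t, mn l ≤ t → t ≤ Mx l → |FFl Fl η l t| ≤ K ∧ |FFg Fg η l t| ≤ K ∧
      |FFlg Flg η l t| ≤ K := by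
    intro t h1 h2
    obtain ⟨e1, e2⟩ := hBt t h1
    obtain ⟨b1, b2, b3⟩ := hK t (by linarith) (in_range hl h1 h2)
    unfold FFl FFg FFlg
    rw [e1, e2, mul_one, mul_one]
    exact ⟨b1, b2, b3⟩
  have hpos : ∀ x : ℝ × ℝ, Real.log 4 < x.1 → ContDiffAt ℝ 1 y x := by
    intro x hx
    have h1 : 0 < y x := by
      have h2 := hy.lo x.1 x.2 hx.le
      have h3 : 0 < mn x.1 := by
        unfold mn
        refine Real.arcosh_pos ?_
        refine lt_of_lt_of_le ?_ (le_max_right _ _)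
        unfold rho
        have h4 : 4 < Real.exp x.1 := by
          rw [← Real.exp_log (show (0 : ℝ) < 4 by norm_num)]
          exact Real.exp_lt_exp.2 hx
        linarith
      exact h3.trans_le h2
    exact (hy.data.smooth x h1).of_le (by norm_num)
  have hdiff : ∀ φ, DifferentiableAt ℝ y (l, φ) := fun φ =>
    (hpos (l, φ) hl4).differentiableAt (by norm_num)
  have hc1 : Continuous fun φ => y (l, φ) := hy.data.cont.comp (by fun_prop)
  have hc2 : Continuous fun φ => d1 y (l, φ) := by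
    rw [continuous_iff_continuousAt]
    intro φ
    have h1 : ContinuousAt (d1 y) (l, φ) := (cont_d1 hpos).continuousAt
      ((isOpen_lt continuous_const continuous_fst).mem_nhds hl4)
    exact ContinuousAt.comp (x := φ) h1 (by fun_prop)
  have hmain := th_base (Pool.Agent.H15.EH.FF_data h hη) hη (m := mn l) (M := Mx l) (l := l)
    (K := K) (by linarith) (hw.trans hexp) (fun t h1 h2 => (hbd t h1 h2).1)
    (fun t h1 h2 => (hbd t h1 h2).2.1) (fun t h1 h2 => (hbd t h1 h2).2.2)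
    (y := fun φ => y (l, φ)) (y' := fun φ => d1 y (l, φ)) (c := 0) (d := 2 * π)
    (L := 2 * π * l) (L' := 2 * π) (by positivity) hc1 hc2 (fun φ => hy.lo l φ hl4.le)
    (fun φ => hy.hi l φ hl4.le)
    (fun φ => d1_nonneg hl4 (hdiff φ) (fun s s' h1 h2 => hy.mono φ s s' h1 h2))
    (hy.mean l hl4.le)
    (mean_d1 hpos (fun s hs => hy.mean s hs.le) hl4)
  refine hmain.trans ?_
  have hpi := Real.pi_pos
  have hK2 : 0 ≤ K ^ 2 := sq_nonneg K
  have e1 : K ^ 2 * (Mx l - mn l) * (2 * π) + 6 * K ^ 2 * (Mx l - mn l) * (2 * π - 0) =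
      (14 * π * K ^ 2) * (Mx l - mn l) := by ring
  rw [e1]
  calc (14 * π * K ^ 2) * (Mx l - mn l) ≤ (14 * π * K ^ 2) * (8 * Real.exp (-l)) :=
        mul_le_mul_of_nonneg_left hw (by positivity)
    _ = 112 * π * K ^ 2 * Real.exp (-l) := by ring

/-- block D of the energy part, with `YData (yQ a)` as a hypothesis -/
theorem right_end_of {n : ℕ} {a : Fin n → ℂ} {p c : ℝ} (hT : Touch a p) (hd : YData (yQ a))
    {F Fl Fg Fll Flg Fgg Fllg : ℝ → ℝ → ℝ} (hF : FHyp p c F Fl Fg Fll Flg Fgg Fllg) :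
    ∃ K l₀, Real.log 8 ≤ l₀ ∧ ∀ η, 0 < η → η ≤ 1 / 3 → ∀ l, l₀ ≤ l →
      |Th Fl Fg Flg η (yQ a) l - Th Fl Fg Flg η yV l| ≤ K * Real.exp (-l) := by
  obtain ⟨K, hK⟩ := hF.right
  refine ⟨224 * π * K ^ 2, Real.log 8, le_rfl, fun η hη hη1 l hl => ?_⟩
  have hK' : ∀ g, 0 < g → |Real.cosh g - 2 * rho l| ≤ 1 →
      |Fl l g| ≤ K ∧ |Fg l g| ≤ K ∧ |Flg l g| ≤ K := by
    intro g h1 h2
    obtain ⟨b1, b2, b3, -⟩ := hK l g hl h1 h2
    exact ⟨b1, b2, b3⟩
  have h1 := Th_base hF.data hl hK' hη hη1 (yQ_RData hT hd)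
  have h2 := Th_base hF.data hl hK' hη hη1 yV_RData
  have h3 := abs_le.1 h1
  have h4 := abs_le.1 h2
  rw [abs_le]
  constructor <;> linarith

/-- block D of the energy part -/
theorem right_end {n : ℕ} {a : Fin n → ℂ} {p c : ℝ} (hT : Touch a p)
    {F Fl Fg Fll Flg Fgg Fllg : ℝ → ℝ → ℝ} (hF : FHyp p c F Fl Fg Fll Flg Fgg Fllg) :
    ∃ K l₀, Real.log 8 ≤ l₀ ∧ ∀ η, 0 < η → η ≤ 1 / 3 → ∀ l, l₀ ≤ l →
      |Th Fl Fg Flg η (yQ a) l - Th Fl Fg Flg η yV l| ≤ K * Real.exp (-l) :=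
  right_end_of hT (Pool.Agent.H23.EH.yQ_data hT.hn a) hF

end Pool.Agent.H63.EH
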